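import Pool.Agent.W253.Pave.B

/-!
Stability of derivatives, of `f + ε (sum of three derivatives)` and of `op3`
(three-paving theorem MP_2fb14c_an, part A).
-/

namespace Pool.Agent.W253.Pave

open H990SF Pool.Agent.W676.KS Pool.Agent.W702.Pave

/-- the root of the slope is not in the upper half plane -/
lemma slope_root (A B C D : ℂ)
    (h : ∀ u v : ℂ, 0 < u.im → 0 < v.im → A + B * u + C * v + D * u * v ≠ 0)
    (hD : D ≠ 0) : 0 ≤ (C / D).im := by
  by_contra hneg
  push Not at hneg
  set u0 : ℂ := -(C / D) with hu0
  have hu0im : 0 < u0.im := by simp [hu0]; linarith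
  set K : ℂ := A + B * u0 with hK
  have hCu : C + D * u0 = 0 := by rw [hu0]; field_simp; ring
  set q : ℂ := Complex.I * K / D with hq
  set r : ℂ := B / D with hr
  obtain ⟨N, hN⟩ := exists_nat_gt (max (|q.im| / u0.im) (|r.im|))
  have hN1 : |q.im| / u0.im < N := lt_of_le_of_lt (le_max_left _ _) hN
  have hN2 : |r.im| < N := lt_of_le_of_lt (le_max_right _ _) hN
  have hNpos : (0 : ℝ) < N := lt_of_le_of_lt (abs_nonneg _) hN2
  have hNne : (N : ℂ) ≠ 0 := by exact_mod_cast hNpos.ne'
  set ε : ℂ := q / N with hε
  have hεim : 0 < (u0 + ε).im := by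
    have : ε.im = q.im / N := by
      rw [hε]
      have : (q / (N : ℂ)) = q / ((N : ℝ) : ℂ) := by simp
      rw [this, Complex.div_ofReal_im]
    rw [Complex.add_im, this]
    have h3 : |q.im| / N < u0.im := by
      rw [div_lt_iff₀ hNpos]
      rw [div_lt_iff₀ hu0im] at hN1
      linarith
    have h4 : -(|q.im| / N) ≤ q.im / N := by
      rw [← neg_div]
      exact div_le_div_of_nonneg_right (neg_abs_le _) hNpos.le
    linarith
  have hvim : 0 < ((N : ℂ) * Complex.I - r).im := by
    simp only [Complex.sub_im, Complex.mul_im, Complex.natCast_re, Complex.I_im, mul_one,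
      Complex.natCast_im, Complex.I_re, mul_zero, add_zero]
    have := le_abs_self r.im
    linarith
  refine h (u0 + ε) ((N : ℂ) * Complex.I - r) hεim hvim ?_
  have e1 : A + B * (u0 + ε) + C * ((N : ℂ) * Complex.I - r)
      + D * (u0 + ε) * ((N : ℂ) * Complex.I - r) =
      K + B * ε + (C + D * u0) * ((N : ℂ) * Complex.I - r)
      + D * ε * ((N : ℂ) * Complex.I - r) := by rw [hK]; ring
  rw [e1, hCu, hε, hq, hr]
  field_simp
  ring_nf
  simp [Complex.I_sq]

section
variable {U : Type*} [DecidableEq U]

/-- a zero of the derivative spreads along coordinate lines -/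
lemma zero_line {f : (U → ℂ) → ℂ} (hf : MA f) (hs : Stab f) (e : U) {z : U → ℂ}
    (hz : ∀ i, 0 < (z i).im) (h0 : pd e f z = 0) (k : U) (t : ℂ) :
    pd e f (Function.update z k t) = 0 := by
  by_cases hke : k = e
  · subst hke
    have := congrFun (pd_self k f) z
    rw [(hf.pd k).line z k t, h0, this]
    simp
  · have hb := (hf.pd e) z k t
    have hb2 := (hf.pd e) z k (z k)
    rw [Function.update_eq_self, h0] at hb2
    have hD : pd k (pd e f) z = 0 := by
      by_contra hD
      have h1 := slope_root (f (Function.update (Function.update z k 0) e 0))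
        (pd k f (Function.update z e 0)) (pd e f (Function.update z k 0))
        (pd k (pd e f) z) (by
          intro u v hu hv
          rw [← hf.two z hke u v]
          apply hs
          intro i
          by_cases h1 : i = e
          · subst h1; simpa using hv
          · by_cases h2 : i = k
            · subst h2; simpa [Function.update_of_ne h1] using hu
            · simpa [Function.update_of_ne h1, Function.update_of_ne h2] using hz i) hD
      have h2 : pd e f (Function.update z k 0) = - (z k) * pd k (pd e f) z := by
        have e1 : pd k (pd e f) z =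
            pd e f (Function.update z k 1) - pd e f (Function.update z k 0) := rfl
        rw [e1]
        linear_combination -hb2
      rw [h2, mul_div_cancel_right₀ _ hD, Complex.neg_im] at h1
      have := hz k
      linarith
    have hC : pd e f (Function.update z k 0) = 0 := by
      have e1 : pd e f (Function.update z k 1) - pd e f (Function.update z k 0) = 0 := hD
      rw [e1, mul_zero, add_zero] at hb2
      exact hb2.symm
    have e1 : pd e f (Function.update z k 1) - pd e f (Function.update z k 0) = 0 := hD
    rw [hb, e1, hC]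
    simp

/-- a multi-affine function vanishing on the upper half space vanishes -/
lemma ma_zero [Fintype U] {b : (U → ℂ) → ℂ} (hb : MA b)
    (h : ∀ z : U → ℂ, (∀ i, 0 < (z i).im) → b z = 0) (x : U → ℂ) : b x = 0 := by
  have key : ∀ S : Finset U, ∀ x : U → ℂ, (∀ i, i ∉ S → 0 < (x i).im) → b x = 0 := by
    intro S
    induction S using Finset.induction_on with
    | empty => intro x hx; exact h x (fun i => hx i (by simp))
    | insert a S ha ih =>
      intro x hx
      have h1 : ∀ t : ℂ, 0 < t.im → b (Function.update x a t) = 0 := by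
        intro t ht
        apply ih
        intro i hi
        by_cases hia : i = a
        · subst hia; simpa using ht
        · rw [Function.update_of_ne hia]
          exact hx i (by simp [hia, hi])
      have a1 := hb x a Complex.I
      have a2 := hb x a (2 * Complex.I)
      have a3 := hb x a (x a)
      rw [h1 Complex.I (by simp)] at a1
      rw [h1 (2 * Complex.I) (by simp)] at a2
      rw [Function.update_eq_self] at a3
      have c0 : b (Function.update x a 0) = 0 := by linear_combination a2 - 2 * a1
      have c1 : b (Function.update x a 1) - b (Function.update x a 0) = 0 := by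
        rw [c0, zero_add] at a1
        have := a1.symm
        rw [c0]
        exact (mul_eq_zero.1 this).resolve_left Complex.I_ne_zero
      rw [a3, c1, c0]
      simp
  exact key Finset.univ x (fun i hi => absurd (Finset.mem_univ i) hi)

/-- a zero of the derivative in the upper half space kills it -/
lemma all_zero [Fintype U] {f : (U → ℂ) → ℂ} (hf : MA f) (hs : Stab f) (e : U) {z : U → ℂ}
    (hz : ∀ i, 0 < (z i).im) (h0 : pd e f z = 0) (x : U → ℂ) : pd e f x = 0 := by
  refine ma_zero (hf.pd e) ?_ x
  intro w hw
  have key : ∀ S : Finset U, pd e f (fun i => if i ∈ S then w i else z i) = 0 := by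
    intro S
    induction S using Finset.induction_on with
    | empty => simpa using h0
    | insert a S ha ih =>
      have e1 : (fun i => if i ∈ insert a S then w i else z i) =
          Function.update (fun i => if i ∈ S then w i else z i) a (w a) := by
        funext i
        by_cases h : i = a
        · subst h; simp
        · simp [h]
      rw [e1]
      refine zero_line hf hs e ?_ ih a (w a)
      intro i
      show 0 < (if i ∈ S then w i else z i).im
      split_ifs
      · exact hw i
      · exact hz i
  simpa using key Finset.univ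

end

theorem s_pd : S_pd := by
  intro U _ _ f e hf hb
  refine ⟨hf.ma.pd e, ?_, hf.re.pd e, cont_pd hf.co e⟩
  intro z hz h0
  obtain ⟨R, hR⟩ := hb
  have h1 := hR (fun _ => R) (fun _ => le_rfl)
  have h2 : rl (pd e f) (fun _ => R) = 0 := by
    show (pd e f _).re = 0
    rw [all_zero hf.ma hf.st e hz h0]
    rfl
  rw [h2] at h1
  exact lt_irrefl _ h1

section
variable {U : Type*} [DecidableEq U]

/-- logarithmic derivatives lie in the lower half plane -/
lemma log_der {f : (U → ℂ) → ℂ} (hf : MA f) (hs : Stab f) (e : U) {z : U → ℂ}
    (hz : ∀ i, 0 < (z i).im) : pd e f z / f z = 0 ∨ (pd e f z / f z).im < 0 := by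
  by_cases h0 : pd e f z = 0
  · left; rw [h0, zero_div]
  right
  have hfz : f z ≠ 0 := hs z hz
  set t : ℂ := z e - f z / pd e f z with ht
  have hroot : f (Function.update z e t) = 0 := by
    rw [hf.line z e t, ht]
    field_simp
    ring
  have htim : t.im ≤ 0 := by
    by_contra hpos
    push Not at hpos
    refine hs (Function.update z e t) ?_ hroot
    intro i
    by_cases hie : i = e
    · subst hie; simpa using hpos
    · rw [Function.update_of_ne hie]; exact hz i
  have h1 : 0 < (f z / pd e f z).im := by
    have := hz e
    rw [ht, Complex.sub_im] at htim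
    linarith
  have h2 : pd e f z / f z = (f z / pd e f z)⁻¹ := (inv_div _ _).symm
  rw [h2, Complex.inv_im]
  have h3 : 0 < Complex.normSq (f z / pd e f z) :=
    Complex.normSq_pos.2 (div_ne_zero hfz h0)
  exact div_neg_of_neg_of_pos (by linarith) h3

/-- slope of a stable function whose slope is nonzero -/
lemma im_ratio {f : (U → ℂ) → ℂ} (hf : MA f) (hs : Stab f) (e : U) {z : U → ℂ}
    (hz : ∀ i, 0 < (z i).im) (h0 : pd e f z ≠ 0) : 0 < (f z / pd e f z).im := by
  rcases log_der hf hs e hz with h | h
  · exfalso
    rcases div_eq_zero_iff.1 h with h | h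
    · exact h0 h
    · exact hs z hz h
  · have h2 : f z / pd e f z = (pd e f z / f z)⁻¹ := (inv_div _ _).symm
    rw [h2, Complex.inv_im]
    have h3 : 0 < Complex.normSq (pd e f z / f z) :=
      Complex.normSq_pos.2 (div_ne_zero h0 (hs z hz))
    exact div_pos (by linarith) h3

end

lemma ma_add {U : Type*} [DecidableEq U] {f g : (U → ℂ) → ℂ} (hf : MA f) (hg : MA g) :
    MA (fun z => f z + g z) := by
  intro z j t
  simp only
  rw [hf z j t, hg z j t]; ring

lemma ma_smul {U : Type*} [DecidableEq U] {f : (U → ℂ) → ℂ} (hf : MA f) (w : ℂ) :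
    MA (fun z => w * f z) := by
  intro z j t
  simp only
  rw [hf z j t]; ring

theorem s_tr : S_tr := by
  intro I _ _ f i ε hf
  refine ⟨?_, ?_, ?_, ?_⟩
  · exact ma_add hf.ma (ma_smul (ma_add (ma_add (hf.ma.pd _) (hf.ma.pd _)) (hf.ma.pd _)) _)
  · intro z hz h0
    have hfz := hf.st z hz
    set q0 := pd (i, 0) f z / f z with hq0
    set q1 := pd (i, 1) f z / f z with hq1
    set q2 := pd (i, 2) f z / f z with hq2
    have h1 : 1 + (ε : ℂ) * (q0 + q1 + q2) = 0 := by
      have : f z * (1 + (ε : ℂ) * (q0 + q1 + q2)) = 0 := by
        rw [← h0, hq0, hq1, hq2]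
        field_simp
      exact (mul_eq_zero.1 this).resolve_left hfz
    have him := congrArg Complex.im h1
    rw [Complex.add_im, Complex.im_ofReal_mul, Complex.one_im, zero_add, Complex.zero_im,
      Complex.add_im, Complex.add_im] at him
    rcases mul_eq_zero.1 him with h2 | h2
    · rw [h2] at h1
      simp at h1
    · have b0 := log_der hf.ma hf.st (i, 0) hz
      have b1 := log_der hf.ma hf.st (i, 1) hz
      have b2 := log_der hf.ma hf.st (i, 2) hz
      rw [← hq0] at b0
      rw [← hq1] at b1
      rw [← hq2] at b2
      have c0 : q0.im ≤ 0 := by rcases b0 with h | h; · rw [h]; simp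
                                · exact h.le
      have c1 : q1.im ≤ 0 := by rcases b1 with h | h; · rw [h]; simp
                                · exact h.le
      have c2 : q2.im ≤ 0 := by rcases b2 with h | h; · rw [h]; simp
                                · exact h.le
      have d0 : q0 = 0 := b0.resolve_right (by intro h; linarith)
      have d1 : q1 = 0 := b1.resolve_right (by intro h; linarith)
      have d2 : q2 = 0 := b2.resolve_right (by intro h; linarith)
      rw [d0, d1, d2] at h1
      simp at h1
  · intro x
    have h0 := hf.re x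
    have h1 := hf.re.pd (i, 0) x
    have h2 := hf.re.pd (i, 1) x
    have h3 := hf.re.pd (i, 2) x
    show (f _ + (ε : ℂ) * (_ + _ + _)).im = 0
    rw [Complex.add_im, Complex.im_ofReal_mul, Complex.add_im, Complex.add_im, h0, h1, h2, h3]
    simp
  · exact hf.co.add (continuous_const.mul
      (((cont_pd hf.co _).add (cont_pd hf.co _)).add (cont_pd hf.co _)))

section
variable {I : Type} [DecidableEq I]

lemma DL_append {U : Type*} [DecidableEq U] (E F : List U) (f : (U → ℂ) → ℂ) :
    DL (E ++ F) f = DL E (DL F f) := by
  simp [DL, List.foldr_append]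

lemma pd_add {U : Type*} [DecidableEq U] (e : U) (f g : (U → ℂ) → ℂ) :
    pd e (fun z => f z + g z) = fun z => pd e f z + pd e g z := by
  funext z
  simp only [pd]
  ring

lemma DL_add {U : Type*} [DecidableEq U] (E : List U) (f g : (U → ℂ) → ℂ) :
    DL E (fun z => f z + g z) = fun z => DL E f z + DL E g z := by
  induction E with
  | nil => rfl
  | cons e E ih =>
    show pd e (DL E _) = fun z => pd e (DL E f) z + pd e (DL E g) z
    rw [ih, pd_add]

lemma Big.add {U : Type*} {f g : (U → ℂ) → ℂ} (hf : Big f) (hg : Big g) :
    Big (fun z => f z + g z) := by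
  obtain ⟨R, hR⟩ := hf
  obtain ⟨T, hT⟩ := hg
  refine ⟨max R T, fun w hw => ?_⟩
  have h1 := hR w (fun e => (le_max_left _ _).trans (hw e))
  have h2 := hT w (fun e => (le_max_right _ _).trans (hw e))
  show 0 < (f _ + g _).re
  rw [Complex.add_re]
  exact add_pos h1 h2

end

theorem s_op : S_op := by
  intro I _ _ f L i hf hi
  have hpd := s_pd
  have hB : ∀ c, Good (B i f c) := good_B hpd hf hi
  have hK : Good (K3 i f) := by
    refine good_DL hpd hf [(i, 0), (i, 1), (i, 2)] (nodup3 i) ?_
    intro e he
    simp only [List.mem_cons, List.not_mem_nil, or_false] at he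
    rcases he with rfl | rfl | rfl <;> exact hi
  have hsum : op3 i f = fun z => (B i f 2 z + B i f 1 z) + B i f 0 z := rfl
  refine ⟨⟨?_, ?_, ?_, ?_⟩, ?_⟩
  · rw [hsum]
    exact ma_add (ma_add (hB 2).ma (hB 1).ma) (hB 0).ma
  · intro z hz h0
    have hKz : K3 i f z ≠ 0 := hK.st z hz
    have h1 : ∀ c, 0 < (B i f c z / K3 i f z).im := by
      intro c
      have := im_ratio (hB c).ma (hB c).st (i, c) hz (by rw [pd_B]; exact hKz)
      rwa [pd_B] at this
    have h2 : B i f 2 z / K3 i f z + B i f 1 z / K3 i f z + B i f 0 z / K3 i f z = 0 := by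
      rw [← add_div, ← add_div]
      have : B i f 2 z + B i f 1 z + B i f 0 z = 0 := h0
      rw [this, zero_div]
    have h3 := congrArg Complex.im h2
    rw [Complex.add_im, Complex.add_im, Complex.zero_im] at h3
    have a0 := h1 0
    have a1 := h1 1
    have a2 := h1 2
    linarith
  · intro x
    have a0 := (hB 0).re x
    have a1 := (hB 1).re x
    have a2 := (hB 2).re x
    rw [hsum]
    show (B i f 2 _ + B i f 1 _ + B i f 0 _).im = 0
    rw [Complex.add_im, Complex.add_im, a0, a1, a2]
    simp
  · rw [hsum]
    exact ((hB 2).co.add (hB 1).co).add (hB 0).co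
  · intro E hE hoff
    have key : ∀ a b : Fin 3, a ≠ b → Big (DL E (pd (i, a) (pd (i, b) f))) := by
      intro a b hab
      have e1 : DL E (pd (i, a) (pd (i, b) f)) = DL (E ++ [(i, a), (i, b)]) f := by
        rw [DL_append]; rfl
      rw [e1]
      apply hf.big
      · rw [List.nodup_append]
        refine ⟨hE, by simp [hab], ?_⟩
        intro x hx y hy hxy
        subst hxy
        have h1 := hoff x hx
        simp only [List.mem_cons, List.not_mem_nil, or_false] at hy
        rcases hy with rfl | rfl <;> simp at h1
      · intro e he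
        rcases List.mem_append.1 he with h | h
        · intro hL
          exact hoff e h (List.mem_cons_of_mem _ hL)
        · simp only [List.mem_cons, List.not_mem_nil, or_false] at h
          rcases h with rfl | rfl <;> exact hi
    rw [hsum, DL_add, DL_add]
    exact Big.add (Big.add (key 0 1 (by decide)) (key 0 2 (by decide))) (key 1 2 (by decide))

/-- Part A. -/
theorem mainA : S_pd ∧ S_tr ∧ S_op := ⟨s_pd, s_tr, s_op⟩

/-- Part B without hypotheses. -/
theorem mainB : S_ab ∧ S_low ∧ S_sel := main s_pd s_op

end Pool.Agent.W253.Pave
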