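import Pool.Agent.W702.Pave.Defs

/-!
Orthant positivity of derivatives, lowering and selection for the three-paving theorem
(MP_2fb14c_an, part B).
-/

namespace Pool.Agent.W253.Pave

open H990SF Pool.Agent.W676.KS Pool.Agent.W702.Pave

section
variable {U : Type*} [DecidableEq U] [Fintype U]

/-- positivity spreads when the derivative is positive on the orthant -/
lemma prop_up {P : (U → ℝ) → ℝ} (hA : Aff P) (hR : Ray P) {j : U} {y : U → ℝ}
    (h : Above (D j P) y) (h0 : 0 < P y) : Above P y := by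
  intro w hw
  refine coord_induction hw (fun x => 0 < P x) h0 ?_
  intro x k t hyx _ hkt _ ih
  have h1 := mono_step hA hR j k x hkt
  have h2 := h x hyx
  have h3 := h (Function.update x k t) (le_update hyx ((hyx k).trans hkt))
  have h4 : 0 < D j P x * P (Function.update x k t) := lt_of_lt_of_le (mul_pos h3 ih) h1
  exact pos_of_mul_pos_right h4 h2.le

/-- going up one integration -/
lemma up {P : (U → ℝ) → ℝ} (hA : Aff P) (hR : Ray P) {e : U} {y : U → ℝ}
    (h : Above (D e P) y) : ∃ R : ℝ, Above P (Function.update y e R) := by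
  have hq : 0 < D e P y := h y le_rfl
  refine ⟨y e + (|P y| + 1) / D e P y, ?_⟩
  have hR0 : 0 < (|P y| + 1) / D e P y := div_pos (by positivity) hq
  refine prop_up hA hR (j := e) ?_ ?_
  · intro w hw
    refine h w (le_trans ?_ hw)
    exact le_update le_rfl (by linarith)
  · rw [hA y e]
    have e1 : (y e + (|P y| + 1) / D e P y - y e) * D e P y = |P y| + 1 := by
      field_simp
      ring
    rw [e1]
    have := neg_abs_le (P y)
    linarith

/-- one derivative is positive on the orthant -/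
lemma above_pd {f : (U → ℂ) → ℂ} (hf : Good f) {e : U} (hb : Big (pd e f)) {z : U → ℝ}
    (h : Above (rl f) z) : Above (rl (pd e f)) z := by
  intro w hw
  rw [← D_rl']
  have h1 := Above.D_nonneg hf.aff h e hw
  rcases h1.lt_or_eq with h2 | h2
  · exact h2
  · exfalso
    obtain ⟨R, hRb⟩ := hb
    have hw0 : Above (rl f) w := fun v hv => h v (hw.trans hv)
    set w' : U → ℝ := fun k => max (w k) R with hw'
    have hww : w ≤ w' := fun k => le_max_left _ _
    have h3 := Above.mono hf.aff hf.ray hw0 e hww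
    rw [← h2, zero_mul] at h3
    have h4 : 0 < D e (rl f) w' := by
      rw [D_rl']
      exact hRb w' (fun k => le_max_right _ _)
    have h5 := mul_pos h4 (hw0 w le_rfl)
    linarith

end

section
variable {I : Type} [DecidableEq I] [Fintype I]

lemma good_DL (hpd : S_pd) {f : (I × Fin 3 → ℂ) → ℂ} {L : List I} (hf : VG L f)
    (E : List (I × Fin 3)) (hE : E.Nodup) (hoff : ∀ e ∈ E, e.1 ∉ L) : Good (DL E f) := by
  induction E with
  | nil => exact hf.good
  | cons e E ih =>
    have h1 := ih (List.nodup_cons.1 hE).2 (fun a ha => hoff a (List.mem_cons_of_mem _ ha))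
    exact hpd (I × Fin 3) (DL E f) e h1 (hf.big (e :: E) hE hoff)

theorem s_ab (hpd : S_pd) : S_ab := by
  intro I _ _ f L z E hf hz hE hoff
  induction E with
  | nil => exact hz
  | cons e E ih =>
    have hE' := (List.nodup_cons.1 hE).2
    have hoff' : ∀ a ∈ E, a.1 ∉ L := fun a ha => hoff a (List.mem_cons_of_mem _ ha)
    exact above_pd (good_DL hpd hf E hE' hoff') (hf.big (e :: E) hE hoff) (ih hE' hoff')

/-- the three second derivatives -/
def B (i : I) (f : (I × Fin 3 → ℂ) → ℂ) : Fin 3 → ((I × Fin 3 → ℂ) → ℂ)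
  | 0 => pd (i, 1) (pd (i, 2) f)
  | 1 => pd (i, 0) (pd (i, 2) f)
  | 2 => pd (i, 0) (pd (i, 1) f)

/-- the third derivative -/
def K3 (i : I) (f : (I × Fin 3 → ℂ) → ℂ) : (I × Fin 3 → ℂ) → ℂ :=
  pd (i, 0) (pd (i, 1) (pd (i, 2) f))

omit [Fintype I] in
lemma rl_op3 (i : I) (f : (I × Fin 3 → ℂ) → ℂ) (x : I × Fin 3 → ℝ) :
    rl (op3 i f) x = rl (B i f 0) x + rl (B i f 1) x + rl (B i f 2) x := by
  simp only [rl, op3, B, Complex.add_re]
  ring

omit [Fintype I] in
lemma pd_B (i : I) (f : (I × Fin 3 → ℂ) → ℂ) (c : Fin 3) : pd (i, c) (B i f c) = K3 i f := by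
  fin_cases c
  · rfl
  · show pd (i, 1) (pd (i, 0) (pd (i, 2) f)) = pd (i, 0) (pd (i, 1) (pd (i, 2) f))
    rw [pd_comm (i, 1) (i, 0)]
  · show pd (i, 2) (pd (i, 0) (pd (i, 1) f)) = pd (i, 0) (pd (i, 1) (pd (i, 2) f))
    rw [pd_comm (i, 2) (i, 0), pd_comm (i, 2) (i, 1)]

omit [Fintype I] in
lemma D_B (i : I) (f : (I × Fin 3 → ℂ) → ℂ) (c : Fin 3) :
    D (i, c) (rl (B i f c)) = rl (K3 i f) := by
  rw [D_rl', pd_B]

omit [Fintype I] in
lemma K3_update (i : I) (f : (I × Fin 3 → ℂ) → ℂ) (c : Fin 3) (x : I × Fin 3 → ℝ) (t : ℝ) :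
    rl (K3 i f) (Function.update x (i, c) t) = rl (K3 i f) x := by
  rw [← D_B i f c, D_update_self]

omit [DecidableEq I] [Fintype I] in
lemma ne01 (i : I) : ((i, 0) : I × Fin 3) ≠ (i, 1) := by simp
omit [DecidableEq I] [Fintype I] in
lemma ne02 (i : I) : ((i, 0) : I × Fin 3) ≠ (i, 2) := by simp
omit [DecidableEq I] [Fintype I] in
lemma ne12 (i : I) : ((i, 1) : I × Fin 3) ≠ (i, 2) := by simp

omit [DecidableEq I] [Fintype I] in
lemma nodup3 (i : I) : ([(i, 0), (i, 1), (i, 2)] : List (I × Fin 3)).Nodup := by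
  simp

omit [Fintype I] in
lemma big_K3 {f : (I × Fin 3 → ℂ) → ℂ} {L : List I} (hf : VG L f) {i : I} (hi : i ∉ L) :
    Big (K3 i f) := by
  refine hf.big [(i, 0), (i, 1), (i, 2)] (nodup3 i) ?_
  intro e he
  simp only [List.mem_cons, List.not_mem_nil, or_false] at he
  rcases he with rfl | rfl | rfl <;> exact hi

lemma good_B (hpd : S_pd) {f : (I × Fin 3 → ℂ) → ℂ} {L : List I} (hf : VG L f) {i : I}
    (hi : i ∉ L) (c : Fin 3) : Good (B i f c) := by
  fin_cases c
  · refine good_DL hpd hf [(i, 1), (i, 2)] (by simp) ?_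
    intro e he
    simp only [List.mem_cons, List.not_mem_nil, or_false] at he
    rcases he with rfl | rfl <;> exact hi
  · refine good_DL hpd hf [(i, 0), (i, 2)] (by simp) ?_
    intro e he
    simp only [List.mem_cons, List.not_mem_nil, or_false] at he
    rcases he with rfl | rfl <;> exact hi
  · refine good_DL hpd hf [(i, 0), (i, 1)] (by simp) ?_
    intro e he
    simp only [List.mem_cons, List.not_mem_nil, or_false] at he
    rcases he with rfl | rfl <;> exact hi

omit [Fintype I] in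
/-- `K` is positive above `z'` too. -/
lemma K3_above {f : (I × Fin 3 → ℂ) → ℂ} {i : I} {z z' : I × Fin 3 → ℝ}
    (h : Above (rl (K3 i f)) z) (hz : ∀ e, e.1 ≠ i → z' e = z e) : Above (rl (K3 i f)) z' := by
  intro w hw
  set w1 := Function.update w (i, 0) (max (w (i, 0)) (z (i, 0))) with hw1
  set w2 := Function.update w1 (i, 1) (max (w (i, 1)) (z (i, 1))) with hw2
  set w3 := Function.update w2 (i, 2) (max (w (i, 2)) (z (i, 2))) with hw3
  have e : rl (K3 i f) w3 = rl (K3 i f) w := by
    rw [hw3, K3_update, hw2, K3_update, hw1, K3_update]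
  rw [← e]
  apply h
  intro a
  obtain ⟨j, c⟩ := a
  by_cases hji : j = i
  · subst hji
    fin_cases c
    · show z (j, 0) ≤ w3 (j, 0)
      rw [hw3, Function.update_of_ne (ne02 j), hw2, Function.update_of_ne (ne01 j), hw1,
        Function.update_self]
      exact le_max_right _ _
    · show z (j, 1) ≤ w3 (j, 1)
      rw [hw3, Function.update_of_ne (ne12 j), hw2, Function.update_self]
      exact le_max_right _ _
    · show z (j, 2) ≤ w3 (j, 2)
      rw [hw3, Function.update_self]
      exact le_max_right _ _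
  · have n : ∀ d : Fin 3, ((j, c) : I × Fin 3) ≠ (i, d) := by
      intro d hd
      exact hji (Prod.mk.inj hd).1
    rw [hw3, Function.update_of_ne (n 2), hw2, Function.update_of_ne (n 1), hw1,
      Function.update_of_ne (n 0), ← hz (j, c) hji]
    exact hw (j, c)

theorem s_low (hpd : S_pd) : S_low := by
  intro I _ _ f L i z z' hf hi hz hzz h0
  have hK : Above (rl (K3 i f)) z := by
    refine s_ab hpd I f L z [(i, 0), (i, 1), (i, 2)] hf hz (nodup3 i) ?_
    intro e he
    simp only [List.mem_cons, List.not_mem_nil, or_false] at he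
    rcases he with rfl | rfl | rfl <;> exact hi
  have hK' := K3_above hK hzz
  intro w hw
  refine coord_induction hw (fun x => 0 < rl (op3 i f) x) h0 ?_
  intro x k t hyx _ hkt _ ih
  have h2 := hK' x hyx
  have h3 := hK' (Function.update x k t) (le_update hyx ((hyx k).trans hkt))
  have h1 : ∀ c : Fin 3, rl (K3 i f) (Function.update x k t) * rl (B i f c) x ≤
      rl (K3 i f) x * rl (B i f c) (Function.update x k t) := by
    intro c
    have hg := good_B hpd hf hi c
    have := mono_step hg.aff hg.ray (i, c) k x hkt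
    rwa [D_B] at this
  have h4 : rl (K3 i f) (Function.update x k t) * rl (op3 i f) x ≤
      rl (K3 i f) x * rl (op3 i f) (Function.update x k t) := by
    rw [rl_op3, rl_op3]
    have a0 := h1 0
    have a1 := h1 1
    have a2 := h1 2
    linarith
  have h5 : 0 < rl (K3 i f) x * rl (op3 i f) (Function.update x k t) :=
    lt_of_lt_of_le (mul_pos h3 ih) h4
  exact pos_of_mul_pos_right h5 h2.le

omit [Fintype I] in
lemma pd_op3 (i : I) (f : (I × Fin 3 → ℂ) → ℂ) : pd (i, 0) (op3 i f) = K3 i f := by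
  have h1 : ∀ z, pd (i, 0) (pd (i, 0) (pd (i, 1) f)) z = 0 := fun z => by
    rw [pd_self]; rfl
  have h2 : ∀ z, pd (i, 0) (pd (i, 0) (pd (i, 2) f)) z = 0 := fun z => by
    rw [pd_self]; rfl
  funext z
  have e : pd (i, 0) (op3 i f) z = pd (i, 0) (pd (i, 0) (pd (i, 1) f)) z +
      pd (i, 0) (pd (i, 0) (pd (i, 2) f)) z + pd (i, 0) (pd (i, 1) (pd (i, 2) f)) z := by
    show op3 i f _ - op3 i f _ = (pd (i, 0) (pd (i, 1) f) _ - pd (i, 0) (pd (i, 1) f) _) +
      (pd (i, 0) (pd (i, 2) f) _ - pd (i, 0) (pd (i, 2) f) _) +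
      (pd (i, 1) (pd (i, 2) f) _ - pd (i, 1) (pd (i, 2) f) _)
    simp only [op3]
    ring
  rw [e, h1, h2]
  simp only [zero_add]
  rfl

/-- two integrations -/
lemma two_up (hpd : S_pd) {f : (I × Fin 3 → ℂ) → ℂ} {L : List I} (hf : VG L f) {i : I}
    (hi : i ∉ L) {y : I × Fin 3 → ℝ} {a b c : Fin 3} (hca : c ≠ a) (hcb : c ≠ b)
    (h : Above (rl (pd (i, a) (pd (i, b) f))) y) :
    ∃ (c : Fin 3) (y' : I × Fin 3 → ℝ), y' (i, c) = y (i, c) ∧ (∀ e, e.1 ≠ i → y' e = y e) ∧
      Above (rl f) y' := by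
  have hb : Good (pd (i, b) f) := by
    refine good_DL hpd hf [(i, b)] (by simp) ?_
    intro e he
    simp only [List.mem_cons, List.not_mem_nil, or_false] at he
    subst he
    exact hi
  rw [← D_rl'] at h
  obtain ⟨R1, hR1⟩ := up hb.aff hb.ray h
  rw [← D_rl'] at hR1
  obtain ⟨R2, hR2⟩ := up hf.good.aff hf.good.ray hR1
  refine ⟨c, _, ?_, ?_, hR2⟩
  · rw [Function.update_of_ne (by simpa using hcb), Function.update_of_ne (by simpa using hca)]
  · intro e he
    have n : ∀ d : Fin 3, e ≠ (i, d) := by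
      rintro d rfl
      exact he rfl
    rw [Function.update_of_ne (n b), Function.update_of_ne (n a)]

theorem s_sel (hpd : S_pd) (hop : S_op) : S_sel := by
  intro I _ _ f L i y hf hi hy
  have hg := (hop I f L i hf hi).good
  have hbig := big_K3 hf hi
  have hK : Above (rl (K3 i f)) y := by
    have := above_pd hg (e := (i, 0)) (by rw [pd_op3]; exact hbig) hy
    rwa [pd_op3] at this
  have key : ∀ c : Fin 3, 0 < rl (B i f c) y → Above (rl (B i f c)) y := by
    intro c hc
    have hgc := good_B hpd hf hi c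
    refine prop_up hgc.aff hgc.ray (j := (i, c)) ?_ hc
    rw [D_B]
    exact hK
  have h0 := hy y le_rfl
  rw [rl_op3] at h0
  by_cases c0 : 0 < rl (B i f 0) y
  · exact two_up hpd hf hi (a := 1) (b := 2) (c := 0) (by decide) (by decide) (key 0 c0)
  by_cases c1 : 0 < rl (B i f 1) y
  · exact two_up hpd hf hi (a := 0) (b := 2) (c := 1) (by decide) (by decide) (key 1 c1)
  by_cases c2 : 0 < rl (B i f 2) y
  · exact two_up hpd hf hi (a := 0) (b := 1) (c := 2) (by decide) (by decide) (key 2 c2)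
  exfalso
  push Not at c0 c1 c2
  linarith

end

theorem main : S_pd → S_op → S_ab ∧ S_low ∧ S_sel := fun hpd hop =>
  ⟨s_ab hpd, s_low hpd, s_sel hpd hop⟩

end Pool.Agent.W253.Pave
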