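import Pool.Agent.W702.Pave.Defs

/-!
The product of three characteristic determinants (three-paving theorem MP_2fb14c_an, part C).
-/

namespace Pool.Agent.W253.PaveC

open H990SF Pool.Agent.W676.KS Pool.Agent.W702.Pave Matrix
open scoped ComplexOrder

section
variable {I : Type*} [DecidableEq I]

/-- the matrix of colour `c` with the rows and columns in `S` replaced by unit vectors -/
def Mx (Q : Matrix I I ℂ) (S : Finset (I × Fin 3)) (c : Fin 3) (z : I × Fin 3 → ℂ) :
    Matrix I I ℂ :=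
  Matrix.of fun a b => if (a, c) ∈ S ∨ (b, c) ∈ S then (if a = b then 1 else 0)
    else (if a = b then z (a, c) else 0) - Q a b

lemma Mx_apply (Q : Matrix I I ℂ) (S : Finset (I × Fin 3)) (c : Fin 3) (z : I × Fin 3 → ℂ)
    (a b : I) : Mx Q S c z a b = if (a, c) ∈ S ∨ (b, c) ∈ S then (if a = b then 1 else 0)
    else (if a = b then z (a, c) else 0) - Q a b := rfl

lemma Mx_empty (Q : Matrix I I ℂ) (c : Fin 3) (z : I × Fin 3 → ℂ) :
    Mx Q ∅ c z = Matrix.diagonal (fun i => z (i, c)) - Q := by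
  ext a b
  simp [Mx_apply, Matrix.diagonal_apply]

lemma Mx_update_ne (Q : Matrix I I ℂ) (S : Finset (I × Fin 3)) {c d : Fin 3} (hcd : c ≠ d)
    (z : I × Fin 3 → ℂ) (j : I) (t : ℂ) : Mx Q S c (Function.update z (j, d) t) = Mx Q S c z := by
  ext a b
  have : Function.update z (j, d) t (a, c) = z (a, c) :=
    Function.update_of_ne (by simp [hcd]) _ _
  simp only [Mx_apply, this]

lemma Mx_insert_ne (Q : Matrix I I ℂ) (S : Finset (I × Fin 3)) {c d : Fin 3} (hcd : c ≠ d)
    (z : I × Fin 3 → ℂ) (j : I) : Mx Q (insert (j, d) S) c z = Mx Q S c z := by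
  ext a b
  simp [Mx_apply, hcd]

lemma Mx_update (Q : Matrix I I ℂ) (S : Finset (I × Fin 3)) {j : I} {d : Fin 3}
    (h : (j, d) ∉ S) (z : I × Fin 3 → ℂ) (t : ℂ) :
    Mx Q S d (Function.update z (j, d) t) =
      (Mx Q S d z).updateRow j (Mx Q S d z j + (t - z (j, d)) • Pi.single j 1) := by
  ext a b
  by_cases haj : a = j
  · subst haj
    rw [updateRow_self, Pi.add_apply, Pi.smul_apply]
    by_cases hb : (b, d) ∈ S
    · have hab : a ≠ b := by rintro rfl; exact h hb
      simp [Mx_apply, hb, hab, Ne.symm hab]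
    · by_cases hab : a = b
      · subst hab
        simp [Mx_apply, h]
      · simp [Mx_apply, h, hb, hab, Ne.symm hab]
  · rw [updateRow_ne haj]
    have : Function.update z (j, d) t (a, d) = z (a, d) :=
      Function.update_of_ne (by simp [haj]) _ _
    simp only [Mx_apply, this]

variable [Fintype I]

lemma det_upd (Q : Matrix I I ℂ) (S : Finset (I × Fin 3)) {j : I} {d : Fin 3}
    (z : I × Fin 3 → ℂ) :
    ((Mx Q S d z).updateRow j (Pi.single j 1)).det = (Mx Q (insert (j, d) S) d z).det := by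
  refine det_eq_of_forall_row_eq_smul_add_const
    (fun a => if a = j then 0 else Mx Q S d z a j) j (by simp) ?_
  intro a b
  have hj : Mx Q (insert (j, d) S) d z j b = if j = b then 1 else 0 := by
    simp [Mx_apply]
  rw [hj]
  by_cases haj : a = j
  · subst haj
    rw [updateRow_self, hj]
    simp [Pi.single_apply, eq_comm]
  · rw [updateRow_ne haj]
    by_cases hbj : b = j
    · subst hbj
      have : Mx Q (insert (b, d) S) d z a b = 0 := by simp [Mx_apply, haj]
      rw [this]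
      simp [haj]
    · have : Mx Q (insert (j, d) S) d z a b = Mx Q S d z a b := by
        simp [Mx_apply, haj, hbj]
      rw [this]
      simp [Ne.symm hbj]

lemma det_update (Q : Matrix I I ℂ) (S : Finset (I × Fin 3)) {j : I} {d : Fin 3}
    (h : (j, d) ∉ S) (z : I × Fin 3 → ℂ) (t : ℂ) :
    (Mx Q S d (Function.update z (j, d) t)).det =
      (Mx Q S d z).det + (t - z (j, d)) * (Mx Q (insert (j, d) S) d z).det := by
  rw [Mx_update Q S h, det_updateRow_add, det_updateRow_smul, updateRow_eq_self, det_upd]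

/-- the product of the determinants -/
noncomputable def FS (Q : Matrix I I ℂ) (S : Finset (I × Fin 3)) : (I × Fin 3 → ℂ) → ℂ :=
  fun z => ∏ c : Fin 3, (Mx Q S c z).det

lemma FS_empty (Q : Matrix I I ℂ) : FS Q ∅ = FQ Q := by
  funext z
  show ∏ c, _ = ∏ c, _
  exact Finset.prod_congr rfl (fun c _ => by rw [Mx_empty])

lemma FS_update (Q : Matrix I I ℂ) (S : Finset (I × Fin 3)) {e : I × Fin 3}
    (h : e ∉ S) (z : I × Fin 3 → ℂ) (t : ℂ) :
    FS Q S (Function.update z e t) = FS Q S z + (t - z e) * FS Q (insert e S) z := by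
  obtain ⟨j, d⟩ := e
  simp only [FS]
  rw [← Finset.mul_prod_erase _ _ (Finset.mem_univ d),
    ← Finset.mul_prod_erase (a := d) _ (fun c => (Mx Q S c z).det) (Finset.mem_univ d),
    ← Finset.mul_prod_erase (a := d) _ (fun c => (Mx Q (insert (j, d) S) c z).det)
      (Finset.mem_univ d)]
  have e1 : ∏ c ∈ Finset.univ.erase d, (Mx Q S c (Function.update z (j, d) t)).det =
      ∏ c ∈ Finset.univ.erase d, (Mx Q S c z).det :=
    Finset.prod_congr rfl (fun c hc => by rw [Mx_update_ne Q S (Finset.ne_of_mem_erase hc)])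
  have e2 : ∏ c ∈ Finset.univ.erase d, (Mx Q (insert (j, d) S) c z).det =
      ∏ c ∈ Finset.univ.erase d, (Mx Q S c z).det :=
    Finset.prod_congr rfl (fun c hc => by rw [Mx_insert_ne Q S (Finset.ne_of_mem_erase hc)])
  rw [e1, e2, det_update Q S h]
  ring

lemma pd_FS (Q : Matrix I I ℂ) (S : Finset (I × Fin 3)) {e : I × Fin 3} (h : e ∉ S) :
    pd e (FS Q S) = FS Q (insert e S) := by
  funext z
  show FS Q S _ - FS Q S _ = _
  rw [FS_update Q S h, FS_update Q S h]
  ring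

lemma DL_FS (Q : Matrix I I ℂ) (E : List (I × Fin 3)) (hE : E.Nodup) :
    DL E (FQ Q) = FS Q E.toFinset := by
  induction E with
  | nil => exact (FS_empty Q).symm
  | cons e E ih =>
    show pd e (DL E (FQ Q)) = _
    rw [ih (List.nodup_cons.1 hE).2, pd_FS _ _ (by
      rw [List.mem_toFinset]; exact (List.nodup_cons.1 hE).1), List.toFinset_cons]

lemma ma_FQ (Q : Matrix I I ℂ) : MA (FQ Q) := by
  intro z e t
  rw [← FS_empty, FS_update Q ∅ (Finset.notMem_empty e) z t,
    FS_update Q ∅ (Finset.notMem_empty e) z 1, FS_update Q ∅ (Finset.notMem_empty e) z 0]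
  ring

lemma diag_form (y : I → ℂ) (ξ : I → ℂ) :
    star ξ ⬝ᵥ (Matrix.diagonal y *ᵥ ξ) = ∑ i, y i * ((‖ξ i‖ ^ 2 : ℝ) : ℂ) := by
  simp only [dotProduct, mulVec_diagonal, Pi.star_apply]
  refine Finset.sum_congr rfl (fun i _ => ?_)
  have h : ξ i * star (ξ i) = ((‖ξ i‖ ^ 2 : ℝ) : ℂ) := by
    rw [Complex.star_def, Complex.mul_conj, Complex.normSq_eq_norm_sq]
  rw [← h]
  ring

omit [DecidableEq I] in
lemma im_form {Q : Matrix I I ℂ} (hQ : Q.IsHermitian) (ξ : I → ℂ) :
    (star ξ ⬝ᵥ (Q *ᵥ ξ)).im = 0 := by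
  have := hQ.im_star_dotProduct_mulVec_self ξ
  simpa using this

lemma stab_FQ {Q : Matrix I I ℂ} (hQ : Q.IsHermitian) : Stab (FQ Q) := by
  intro z hz h0
  obtain ⟨c, _, hc⟩ := Finset.prod_eq_zero_iff.1 h0
  obtain ⟨ξ, hξ, hM⟩ := exists_mulVec_eq_zero_iff.2 hc
  apply hξ
  rw [sub_mulVec, sub_eq_zero] at hM
  have h := diag_form (fun i => z (i, c)) ξ
  rw [hM] at h
  have him := congrArg Complex.im h
  rw [im_form hQ, Complex.im_sum] at him
  simp only [Complex.mul_im, Complex.ofReal_re, Complex.ofReal_im, mul_zero, zero_add] at him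
  have hnn : ∀ i ∈ Finset.univ, 0 ≤ (z (i, c)).im * ‖ξ i‖ ^ 2 :=
    fun i _ => mul_nonneg (hz _).le (sq_nonneg _)
  funext i
  have := (Finset.sum_eq_zero_iff_of_nonneg hnn).1 him.symm i (Finset.mem_univ i)
  rcases mul_eq_zero.1 this with h1 | h1
  · exact absurd h1 (hz (i, c)).ne'
  · simpa using h1

omit [Fintype I] in
lemma herm_diag {Q : Matrix I I ℂ} (hQ : Q.IsHermitian) (x : I → ℝ) :
    (Matrix.diagonal (fun i => (x i : ℂ)) - Q).IsHermitian := by
  refine IsHermitian.sub ?_ hQ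
  rw [isHermitian_diagonal_iff]
  intro i
  exact Complex.conj_ofReal _

lemma det_real {A : Matrix I I ℂ} (hA : A.IsHermitian) : (A.det).im = 0 := by
  have h2 : star A.det = A.det := by rw [← det_conjTranspose, hA]
  exact Complex.conj_eq_iff_im.1 h2

lemma real_FQ {Q : Matrix I I ℂ} (hQ : Q.IsHermitian) : RealOn (FQ Q) := by
  intro x
  apply Complex.conj_eq_iff_im.1
  show (starRingEnd ℂ) (∏ c, _) = ∏ c, _
  rw [map_prod]
  refine Finset.prod_congr rfl (fun c _ => ?_)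
  exact Complex.conj_eq_iff_im.2 (det_real (herm_diag hQ (fun i => x (i, c))))

lemma cont_FQ (Q : Matrix I I ℂ) : Continuous (FQ Q) := by
  unfold FQ
  refine continuous_finsetProd _ (fun c _ => ?_)
  apply Continuous.matrix_det
  refine continuous_matrix (fun a b => ?_)
  by_cases hab : a = b
  · subst hab
    simp only [Matrix.sub_apply, diagonal_apply_eq]
    exact (continuous_apply _).sub continuous_const
  · simp only [Matrix.sub_apply, diagonal_apply_ne _ hab]
    exact continuous_const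

lemma good_FQ {Q : Matrix I I ℂ} (hQ : Q.IsHermitian) : Good (FQ Q) :=
  ⟨ma_FQ Q, stab_FQ hQ, real_FQ hQ, cont_FQ Q⟩

omit [Fintype I] in
lemma herm_Mx {Q : Matrix I I ℂ} (hQ : Q.IsHermitian) (S : Finset (I × Fin 3)) (c : Fin 3)
    (w : I × Fin 3 → ℝ) : (Mx Q S c (fun e => (w e : ℂ))).IsHermitian := by
  ext a b
  rw [conjTranspose_apply, Mx_apply, Mx_apply]
  have h := hQ.apply a b
  by_cases hab : a = b
  · subst hab
    by_cases ha : (a, c) ∈ S
    · simp [ha]
    · simp only [ha, or_self, if_false, if_true, star_sub, h]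
      simp
  · by_cases hS : (a, c) ∈ S ∨ (b, c) ∈ S
    · simp [hS, hS.symm, hab, Ne.symm hab]
    · have hS' : ¬ ((b, c) ∈ S ∨ (a, c) ∈ S) := fun h => hS h.symm
      simp only [if_neg hS, if_neg hS', if_neg hab, if_neg (Ne.symm hab), zero_sub, star_neg, h]

/-- positivity far away -/
lemma posdef_Mx {Q : Matrix I I ℂ} (hQ : Q.IsHermitian)
    (hb : ∀ ξ : I → ℂ, (star ξ ⬝ᵥ (Q *ᵥ ξ)).re ≤ ∑ i, ‖ξ i‖ ^ 2)
    (S : Finset (I × Fin 3)) (c : Fin 3)
    (w : I × Fin 3 → ℝ) (hw : ∀ e, 1 < w e) : (Mx Q S c (fun e => (w e : ℂ))).PosDef := by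
  refine PosDef.of_dotProduct_mulVec_pos (herm_Mx hQ S c w) ?_
  intro ξ hξ
  set η : I → ℂ := fun a => if (a, c) ∈ S then 0 else ξ a with hη
  have e1 : star ξ ⬝ᵥ (Mx Q S c (fun e => (w e : ℂ)) *ᵥ ξ) =
      star ξ ⬝ᵥ (Matrix.diagonal (fun a => ((if (a, c) ∈ S then 1 else w (a, c) : ℝ) : ℂ)) *ᵥ ξ)
        - star η ⬝ᵥ (Q *ᵥ η) := by
    simp only [dotProduct, mulVec, Finset.mul_sum]
    rw [← Finset.sum_sub_distrib]
    refine Finset.sum_congr rfl (fun a _ => ?_)
    rw [← Finset.sum_sub_distrib]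
    refine Finset.sum_congr rfl (fun b _ => ?_)
    rw [Mx_apply, diagonal_apply]
    simp only [Pi.star_apply, hη]
    by_cases ha : (a, c) ∈ S
    · by_cases hab : a = b
      · subst hab; simp [ha]
      · simp [ha, hab]
    · by_cases hab : a = b
      · subst hab
        simp only [ha, or_self, if_false, if_true]
        ring
      · by_cases hbS : (b, c) ∈ S
        · simp [hbS, hab]
        · simp only [ha, hbS, or_self, if_false, hab]
          ring
  rw [Complex.pos_iff]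
  refine ⟨?_, ?_⟩
  · rw [e1, diag_form, Complex.sub_re, Complex.re_sum]
    have h1 := hb η
    have h2 : ∑ i, ‖η i‖ ^ 2 < ∑ i, (((if (i, c) ∈ S then 1 else w (i, c) : ℝ) : ℂ) *
        ((‖ξ i‖ ^ 2 : ℝ) : ℂ)).re := by
      obtain ⟨k, hk⟩ := Function.ne_iff.1 hξ
      have hterm : ∀ i, (((if (i, c) ∈ S then 1 else w (i, c) : ℝ) : ℂ) *
        ((‖ξ i‖ ^ 2 : ℝ) : ℂ)).re = (if (i, c) ∈ S then 1 else w (i, c)) * ‖ξ i‖ ^ 2 := by
        intro i
        rw [← Complex.ofReal_mul, Complex.ofReal_re]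
      apply Finset.sum_lt_sum
      · intro i _
        rw [hterm]
        by_cases hi : (i, c) ∈ S
        · simp only [hη, hi, if_true, norm_zero]
          have h3 := sq_nonneg ‖ξ i‖
          nlinarith
        · simp only [hη, hi, if_false]
          have := (hw (i, c)).le
          have h3 := sq_nonneg ‖ξ i‖
          nlinarith
      · refine ⟨k, Finset.mem_univ k, ?_⟩
        have hpos : 0 < ‖ξ k‖ ^ 2 := by
          have : 0 < ‖ξ k‖ := norm_pos_iff.2 hk
          positivity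
        rw [hterm]
        by_cases hi : (k, c) ∈ S
        · simp only [hη, hi, if_true, norm_zero]
          linarith
        · simp only [hη, hi, if_false]
          have := hw (k, c)
          nlinarith
    linarith
  · exact (im_form (herm_Mx hQ S c w) ξ).symm

lemma pos_prod (f : Fin 3 → ℂ) (h : ∀ c, 0 < f c) : 0 < (∏ c, f c).re := by
  have e : ∏ c, f c = ((∏ c, (f c).re : ℝ) : ℂ) := by
    rw [Complex.ofReal_prod]
    refine Finset.prod_congr rfl (fun c _ => ?_)
    exact Complex.ext (by simp) (by simpa using (Complex.pos_iff.1 (h c)).2.symm)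
  rw [e, Complex.ofReal_re]
  exact Finset.prod_pos (fun c _ => (Complex.pos_iff.1 (h c)).1)

lemma FS_pos {Q : Matrix I I ℂ} (hQ : Q.IsHermitian)
    (hb : ∀ ξ : I → ℂ, (star ξ ⬝ᵥ (Q *ᵥ ξ)).re ≤ ∑ i, ‖ξ i‖ ^ 2)
    (S : Finset (I × Fin 3)) (w : I × Fin 3 → ℝ) (hw : ∀ e, 1 < w e) : 0 < rl (FS Q S) w :=
  pos_prod _ (fun c => (posdef_Mx hQ hb S c w hw).det_pos)

end

theorem s_vg : S_vg := by
  intro I _ _ Q hQ hb
  refine ⟨good_FQ hQ, ?_⟩
  intro E hE _
  rw [DL_FS Q E hE]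
  exact ⟨2, fun w hw => FS_pos hQ hb _ w (fun e => by have := hw e; linarith)⟩

theorem s_pos : S_pos := by
  intro I _ _ Q x hQ hb hx w hw
  rw [← FS_empty]
  exact FS_pos hQ hb _ w (fun e => lt_of_lt_of_le hx (hw e))

theorem s_sym : S_sym := by
  intro I _ _ Q π z
  show ∏ c, _ = ∏ c, _
  exact Equiv.prod_comp π (fun c => (Matrix.diagonal (fun i => z (i, c)) - Q).det)

theorem s_fin : S_fin := by
  intro I _ _ Q y σ θ hQ hy hab c ξ hξ
  by_contra hneg
  push Not at hneg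
  set H : Matrix I I ℂ := Matrix.diagonal (fun i => ((y (i, c) : ℝ) : ℂ)) - Q with hH
  have hHh : H.IsHermitian := herm_diag hQ (fun i => y (i, c))
  have hform : (star ξ ⬝ᵥ (H *ᵥ ξ)).re < 0 := by
    rw [hH, sub_mulVec, dotProduct_sub, diag_form, Complex.sub_re, Complex.re_sum]
    have h1 : ∑ i, (((y (i, c) : ℝ) : ℂ) * ((‖ξ i‖ ^ 2 : ℝ) : ℂ)).re = θ * ∑ i, ‖ξ i‖ ^ 2 := by
      rw [Finset.mul_sum]
      refine Finset.sum_congr rfl (fun i _ => ?_)
      rw [← Complex.ofReal_mul, Complex.ofReal_re]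
      by_cases hi : σ i = c
      · have := hy i
        rw [hi] at this
        rw [this]
      · rw [hξ i hi]
        simp
    rw [h1]
    linarith
  have hnpsd : ¬ H.PosSemidef := by
    intro h
    have := h.re_dotProduct_nonneg ξ
    have h2 : RCLike.re (star ξ ⬝ᵥ (H *ᵥ ξ)) = (star ξ ⬝ᵥ (H *ᵥ ξ)).re := rfl
    rw [h2] at this
    linarith
  rw [hHh.posSemidef_iff_eigenvalues_nonneg, Pi.le_def] at hnpsd
  push Not at hnpsd
  obtain ⟨k, hk⟩ := hnpsd
  set lam : ℝ := hHh.eigenvalues k with hlam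
  have hlam0 : lam < 0 := by simpa using hk
  set v : I → ℂ := ⇑(hHh.eigenvectorBasis k) with hv
  have hv0 : v ≠ 0 := by
    intro h
    have h1 := hHh.eigenvectorBasis.orthonormal.ne_zero k
    apply h1
    ext i
    exact congrFun h i
  have hHv : H *ᵥ v = lam • v := hHh.mulVec_eigenvectorBasis k
  have hw := hab (fun e => y e - lam) (fun e => by
    show y e ≤ y e - lam
    linarith)
  have hdet : (Matrix.diagonal (fun i => (((y (i, c) - lam : ℝ)) : ℂ)) - Q).det = 0 := by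
    apply exists_mulVec_eq_zero_iff.1
    refine ⟨v, hv0, ?_⟩
    have e1 : Matrix.diagonal (fun i => (((y (i, c) - lam : ℝ)) : ℂ)) - Q =
        H - Matrix.diagonal (fun _ => (lam : ℂ)) := by
      ext a b
      by_cases hab : a = b
      · subst hab
        simp [hH]
        ring
      · simp [hH, diagonal_apply_ne _ hab]
    rw [e1, sub_mulVec, hHv]
    funext i
    simp
  have h0 : rl (FQ Q) (fun e => y e - lam) = 0 := by
    show (∏ d : Fin 3, (Matrix.diagonal (fun i => ((y (i, d) - lam : ℝ) : ℂ)) - Q).det).re = 0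
    rw [Finset.prod_eq_zero (Finset.mem_univ c) hdet]
    rfl
  rw [h0] at hw
  exact lt_irrefl _ hw

section
variable {I : Type*} [DecidableEq I] [Fintype I]

lemma adj_eq {Q : Matrix I I ℂ} (hQ : Q * Q = Q) {x : ℂ} (hx0 : x ≠ 0) (hx1 : x - 1 ≠ 0) :
    (Matrix.diagonal (fun _ => x) - Q).adjugate =
      (Matrix.diagonal (fun _ => x) - Q).det • (x⁻¹ • (1 - Q) + (x - 1)⁻¹ • Q) := by
  set A := Matrix.diagonal (fun _ : I => x) - Q with hA
  have hAx : A = x • (1 : Matrix I I ℂ) - Q := by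
    rw [hA, smul_one_eq_diagonal]
  set B := x⁻¹ • (1 - Q) + (x - 1)⁻¹ • Q with hB
  have hBA : B * A = 1 := by
    have e1 : B * A = (x⁻¹ * x) • (1 : Matrix I I ℂ)
        + (-(x⁻¹ * x) - x⁻¹ + (x - 1)⁻¹ * x) • Q
        + (x⁻¹ - (x - 1)⁻¹) • Q := by
      rw [hB, hAx]
      simp only [add_mul, mul_sub, smul_mul_assoc, mul_smul_comm, sub_mul, one_mul, mul_one,
        smul_sub]
      rw [hQ]
      module
    rw [e1]
    have e2 : x⁻¹ * x = 1 := inv_mul_cancel₀ hx0
    have e3 : (-(x⁻¹ * x) - x⁻¹ + (x - 1)⁻¹ * x) + (x⁻¹ - (x - 1)⁻¹) = 0 := by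
      field_simp
      ring
    rw [add_assoc, ← add_smul, e3, e2, one_smul, zero_smul, add_zero]
  calc A.adjugate = (B * A) * A.adjugate := by rw [hBA, one_mul]
    _ = B * (A * A.adjugate) := by rw [Matrix.mul_assoc]
    _ = A.det • B := by rw [mul_adjugate, mul_smul_comm, mul_one]

lemma det_one {Q : Matrix I I ℂ} (hQ : Q * Q = Q) {j : I} (hj : Q j j = 1 / 2) {x : ℂ}
    (hx0 : x ≠ 0) (hx1 : x - 1 ≠ 0) (d : Fin 3) :
    (Mx Q {(j, d)} d (fun _ => x)).det =
      (1 / 2) * (1 / x + 1 / (x - 1)) * (Matrix.diagonal (fun _ => x) - Q).det := by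
  have h1 := det_upd Q (∅ : Finset (I × Fin 3)) (j := j) (d := d) (fun _ => x)
  have h2 : (insert (j, d) (∅ : Finset (I × Fin 3))) = {(j, d)} := rfl
  rw [h2] at h1
  rw [← h1, Mx_empty, ← adjugate_apply, adj_eq hQ hx0 hx1]
  simp only [Matrix.smul_apply, Matrix.add_apply, Matrix.sub_apply, one_apply_eq, hj, smul_eq_mul]
  field_simp
  ring

end

theorem s_ini : S_ini := by
  intro I _ _ Q x j hQ hQQ hj hx
  have hx0 : (x : ℂ) ≠ 0 := by
    have : x ≠ 0 := by linarith
    exact_mod_cast this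
  have hx1 : (x : ℂ) - 1 ≠ 0 := by
    have h : x - 1 ≠ 0 := by linarith
    exact_mod_cast h
  set G : ℂ := (Matrix.diagonal (fun _ : I => (x : ℂ)) - Q).det with hG
  have hGr : G.im = 0 := det_real (herm_diag hQ (fun _ => x))
  set g : ℝ := G.re with hg
  have hGg : G = (g : ℂ) := Complex.ext (by simp [hg]) (by simpa using hGr)
  set κ : ℝ := (1 / 2) * (1 / x + 1 / (x - 1)) with hκ
  have hκc : (1 / 2 : ℂ) * (1 / (x : ℂ) + 1 / ((x : ℂ) - 1)) = (κ : ℂ) := by
    rw [hκ]; push_cast; ring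
  have hz : (fun i : I × Fin 3 => (((fun _ => x) i : ℝ) : ℂ)) = fun _ => (x : ℂ) := rfl
  -- values
  have hM0 : ∀ c : Fin 3, (Mx Q (∅ : Finset (I × Fin 3)) c (fun _ => (x : ℂ))).det = g := by
    intro c
    rw [Mx_empty, ← hGg]
  have hM1 : ∀ d : Fin 3, (Mx Q {(j, d)} d (fun _ => (x : ℂ))).det = κ * g := by
    intro d
    rw [det_one hQQ hj hx0 hx1, hκc, ← hG, hGg]
  have n01 : ((0 : Fin 3)) ≠ 1 := by decide
  have n02 : ((0 : Fin 3)) ≠ 2 := by decide
  have n12 : ((1 : Fin 3)) ≠ 2 := by decide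
  have v0 : rl (FQ Q) (fun _ => x) = g * g * g := by
    show (FQ Q _).re = _
    rw [hz, ← FS_empty]
    simp only [FS, Fin.prod_univ_three, hM0]
    norm_cast
  have hne : ((j, 0) : I × Fin 3) ∉ ({(j, 1)} : Finset (I × Fin 3)) := by simp
  have v1 : D (j, 0) (rl (FQ Q)) (fun _ => x) = κ * g * g * g := by
    rw [D_rl', ← FS_empty, pd_FS Q ∅ (Finset.notMem_empty _)]
    show (FS Q _ _).re = _
    rw [hz]
    simp only [FS, Fin.prod_univ_three]
    rw [Mx_insert_ne Q ∅ n01.symm, Mx_insert_ne Q ∅ n02.symm, hM0, hM0]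
    have h2 : (insert (j, 0) (∅ : Finset (I × Fin 3))) = {(j, 0)} := rfl
    rw [h2, hM1]
    norm_cast
  have v2 : D (j, 0) (D (j, 1) (rl (FQ Q))) (fun _ => x) = (κ * g) * (κ * g) * g := by
    rw [D_rl', D_rl', ← FS_empty, pd_FS Q ∅ (Finset.notMem_empty _)]
    have h2 : (insert (j, 1) (∅ : Finset (I × Fin 3))) = {(j, 1)} := rfl
    rw [h2, pd_FS Q _ hne]
    show (FS Q _ _).re = _
    rw [hz]
    simp only [FS, Fin.prod_univ_three]
    have a1 : Mx Q (insert (j, 0) {(j, 1)}) 1 (fun _ => (x : ℂ)) = Mx Q {(j, 1)} 1 (fun _ => (x : ℂ)) :=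
      Mx_insert_ne Q _ n01.symm _ _
    have a2 : Mx Q (insert (j, 0) {(j, 1)}) 2 (fun _ => (x : ℂ)) = Mx Q ∅ 2 (fun _ => (x : ℂ)) := by
      rw [Mx_insert_ne Q _ n02.symm, ← h2, Mx_insert_ne Q ∅ n12.symm]
    have a0 : Mx Q (insert (j, 0) {(j, 1)}) 0 (fun _ => (x : ℂ)) = Mx Q {(j, 0)} 0 (fun _ => (x : ℂ)) := by
      rw [← h2, Finset.insert_comm, Mx_insert_ne Q _ n01]
      rfl
    rw [a0, a1, a2, hM0, hM1, hM1]
    norm_cast
  rw [v0, v1, v2]
  constructor
  · ring
  · ring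

theorem main : S_vg ∧ S_pos ∧ S_ini ∧ S_sym ∧ S_fin := ⟨s_vg, s_pos, s_ini, s_sym, s_fin⟩

end Pool.Agent.W253.PaveC
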